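import Pool.Agent.H22.MEternalProof

/-! A graph on 14 vertices that is not defeated in 14 attacks (not even in 16 attacks). -/

namespace Pool.Agent.Results.MP_18a4fa_co.NotDefeated

open Pool.Agent.H22.MEternal

/-- There is a connected graph on `14` vertices which, for every `k ≤ 16`, is not defeated in `k`
attacks in the m-eternal domination game. -/
theorem result : ∃ G : SimpleGraph (Fin 14), G.Connected ∧ ∀ k : ℕ, k ≤ 16 → ¬ DefeatedIn G k :=
  ⟨G14, connected, main⟩

end Pool.Agent.Results.MP_18a4fa_co.NotDefeated
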